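import Pool.Agent.PQP.StmtsZ

/-!
# PQP, row CTZ: the fixed point map is continuous and compact
-/

set_option autoImplicit false

open scoped InnerProductSpace Topology ContDiff Manifold
open MeasureTheory Filter Set

noncomputable section

namespace Pool.Agent.PQP.H36

open Pool.Agent.Helper42_Paneitz Pool.Agent.Helper82_Vir Pool.Agent.FLX

/-- the Hoelder bound of `K` -/
def Khl (C : ℝ) : Prop := ∀ (f : S4 → ℝ) (M : ℝ), Continuous f → (∀ x, |f x| ≤ M) →
    (∀ x, |K f x| ≤ C * M) ∧ ∀ x y : S4, |K f x - K f y| ≤ C * M * √(dist x y)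

theorem cont_K {C : ℝ} (hC : Khl C) (f : C(S4, ℝ)) : Continuous (K f) := by
  obtain ⟨-, h⟩ := hC f ‖f‖ f.continuous (fun x => f.norm_coe_le_norm x)
  rw [continuous_iff_continuousAt]
  intro x
  rw [ContinuousAt, tendsto_iff_dist_tendsto_zero]
  refine squeeze_zero (g := fun y : S4 => C * ‖f‖ * √(dist y x)) (fun _ => dist_nonneg)
    (fun y => by rw [Real.dist_eq]; exact h y x) ?_
  have h1 : Continuous fun y : S4 => C * ‖f‖ * √(dist y x) :=
    continuous_const.mul (Real.continuous_sqrt.comp (continuous_id.dist continuous_const))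
  have h2 := h1.tendsto x
  simpa using h2

theorem exKL {C : ℝ} (hC0 : 0 ≤ C) (hC : Khl C) (hi : ∀ x, Integrable (ell x) sig) :
    ∃ L : C(S4, ℝ) →L[ℝ] C(S4, ℝ), ∀ f x, L f x = K f x := by
  let L₀ : C(S4, ℝ) →ₗ[ℝ] C(S4, ℝ) :=
    { toFun := fun f => ⟨K f, cont_K hC f⟩
      map_add' := fun f g => by
        ext x
        exact K_add hi f.continuous g.continuous x
      map_smul' := fun c f => by
        ext x
        exact K_const_mul c f x }
  refine ⟨L₀.mkContinuous C fun f => ?_, fun f x => rfl⟩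
  rw [ContinuousMap.norm_le _ (by positivity)]
  intro x
  exact (hC f ‖f‖ f.continuous fun y => f.norm_coe_le_norm y).1 x

theorem int_vec (f : C(S4, ℝ)) : Integrable (fun y : S4 => f y • (y : E5)) sig :=
  (f.continuous.smul continuous_subtype_val).integrable_of_hasCompactSupport
    (HasCompactSupport.of_compactSpace _)

theorem exV : ∃ V : C(S4, ℝ) →L[ℝ] E5, ∀ f : C(S4, ℝ), V f = ∫ y : S4, f y • (y : E5) ∂sig := by
  let V₀ : C(S4, ℝ) →ₗ[ℝ] E5 :=
    { toFun := fun f => ∫ y : S4, f y • (y : E5) ∂sig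
      map_add' := fun f g => by
        simp only [ContinuousMap.add_apply, add_smul]
        exact integral_add (int_vec f) (int_vec g)
      map_smul' := fun c f => by
        simp only [ContinuousMap.smul_apply, smul_assoc, RingHom.id_apply]
        exact integral_smul c _ }
  refine ⟨V₀.mkContinuous (sig.real univ) fun f => ?_, fun f => rfl⟩
  have h := norm_integral_le_of_norm_le_const (μ := sig) (f := fun y : S4 => f y • (y : E5))
    (C := ‖f‖) (Eventually.of_forall fun y => by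
      rw [norm_smul, norm_eq_of_mem_sphere, mul_one]
      exact f.norm_coe_le_norm y)
  rw [mul_comm]
  exact h

theorem exA : ∃ A : C(S4, ℝ) →L[ℝ] ℝ, ∀ f : C(S4, ℝ), A f = avg f := by
  let A₀ : C(S4, ℝ) →ₗ[ℝ] ℝ :=
    { toFun := fun f => avg f
      map_add' := fun f g => avg_add f.continuous g.continuous
      map_smul' := fun c f => avg_const_mul c f }
  refine ⟨A₀.mkContinuous 1 fun f => ?_, fun f => rfl⟩
  have hm := msig_pos
  have h := norm_integral_le_of_norm_le_const (μ := sig) (f := fun y : S4 => f y)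
    (C := ‖f‖) (Eventually.of_forall fun y => f.norm_coe_le_norm y)
  have e : sig.real univ = msig := rfl
  rw [e] at h
  show ‖avg f‖ ≤ 1 * ‖f‖
  unfold avg
  rw [norm_div, Real.norm_of_nonneg hm.le, one_mul, div_le_iff₀ hm]
  exact h

theorem inner_V (f : C(S4, ℝ)) (x : S4) :
    ∫ y : S4, ⟪(x : E5), (y : E5)⟫_ℝ * f y ∂sig = ⟪(x : E5), ∫ y : S4, f y • (y : E5) ∂sig⟫_ℝ := by
  rw [← integral_inner (int_vec f)]
  refine integral_congr_ae (Eventually.of_forall fun y => ?_)
  simp only [inner_smul_right]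
  ring

/-- equicontinuous bounded sets of functions are compact -/
theorem cpt (B : ℝ) : IsCompact {f : C(S4, ℝ) | (∀ x, |f x| ≤ B) ∧
    ∀ x y, |f x - f y| ≤ B * √(dist x y) + B * dist x y} := by
  refine ArzelaAscoli.isCompact_of_equicontinuous _ ?_ ?_
  · have e : ContinuousMap.toFun '' {f : C(S4, ℝ) | (∀ x, |f x| ≤ B) ∧
        ∀ x y, |f x - f y| ≤ B * √(dist x y) + B * dist x y} =
        (Set.pi univ fun _ : S4 => Icc (-B) B) ∩
          {g : S4 → ℝ | ∀ x y, |g x - g y| ≤ B * √(dist x y) + B * dist x y} := by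
      ext g
      constructor
      · rintro ⟨f, ⟨h1, h2⟩, rfl⟩
        exact ⟨fun x _ => abs_le.1 (h1 x), h2⟩
      · rintro ⟨h1, h2⟩
        have hg : Continuous g := by
          rw [continuous_iff_continuousAt]
          intro x
          rw [ContinuousAt, tendsto_iff_dist_tendsto_zero]
          refine squeeze_zero (g := fun y : S4 => B * √(dist y x) + B * dist y x)
            (fun _ => dist_nonneg) (fun y => by rw [Real.dist_eq]; exact h2 y x) ?_
          have h3 : Continuous fun y : S4 => B * √(dist y x) + B * dist y x :=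
            (continuous_const.mul (Real.continuous_sqrt.comp
              (continuous_id.dist continuous_const))).add
              (continuous_const.mul (continuous_id.dist continuous_const))
          have h4 := h3.tendsto x
          simpa using h4
        exact ⟨⟨g, hg⟩, ⟨fun x => abs_le.2 (h1 x (mem_univ x)), h2⟩, rfl⟩
    rw [e]
    refine (isCompact_univ_pi fun _ => isCompact_Icc).inter_right ?_
    simp only [ofPred_forall]
    refine isClosed_iInter fun x => isClosed_iInter fun y => ?_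
    exact isClosed_le (((continuous_apply x).sub (continuous_apply y)).abs) continuous_const
  · intro x
    rw [Metric.equicontinuousAt_iff]
    intro ε hε
    have h3 : Continuous fun y : S4 => B * √(dist x y) + B * dist x y :=
      (continuous_const.mul (Real.continuous_sqrt.comp
        (continuous_const.dist continuous_id))).add
        (continuous_const.mul (continuous_const.dist continuous_id))
    have h4 := h3.tendsto x
    have h5 : ∀ᶠ y in 𝓝 x, B * √(dist x y) + B * dist x y < ε := by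
      refine h4.eventually_lt_const ?_
      simpa using hε
    obtain ⟨δ, hδ, h6⟩ := Metric.eventually_nhds_iff.1 h5
    refine ⟨δ, hδ, fun y hy f => ?_⟩
    rw [Real.dist_eq]
    have h7 := f.2.2 x y
    rw [dist_comm] at hy
    exact h7.trans_lt (h6 (by rwa [dist_comm]))

theorem closed_EE (P : Submodule ℝ E5) : IsClosed (EE P : Set C(S4, ℝ)) := by
  have e : (EE P : Set C(S4, ℝ)) = ⋂ x : S4, {f : C(S4, ℝ) | f (act P.reflection x) = f x} := by
    ext f
    simp only [mem_iInter, mem_ofPred_eq]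
    rfl
  rw [e]
  refine isClosed_iInter fun x => isClosed_eq ?_ ?_
  · exact continuous_eval_const _
  · exact continuous_eval_const _

/-- the nonlinearity, jointly continuous -/
theorem cont_F (mos : MosStmt) {X : Type} [TopologicalSpace X] {ψ : S4 → ℝ} (hψ : Continuous ψ)
    {ρ M : ℝ} (hρ0 : 0 < ρ) (hρ1 : ρ < 1) {s : X → ℝ} {z : X → E5} {h : X → C(S4, ℝ)}
    (hs : Continuous s) (hz : Continuous z) (hh : Continuous h) (hz1 : ∀ w, ‖z w‖ ≤ 1) :
    Continuous fun p : X × S4 =>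
      Nn (qt ψ (s p.1) (ρ • z p.1)) (fun x => M * h p.1 x) p.2 := by
  have h1 : Continuous fun p : X × S4 => mob (ρ • z p.1) p.2 := by
    have h2 : Continuous fun p : X × S4 => ((ρ • z p.1, p.2) : E5 × S4) :=
      ((hz.comp continuous_fst).const_smul ρ).prodMk continuous_snd
    have h3 : ∀ p : X × S4, ((ρ • z p.1, p.2) : E5 × S4) ∈ {q : E5 × S4 | ‖q.1‖ < 1} := fun p => by
      rw [mem_ofPred_eq]
      show ‖ρ • z p.1‖ < 1
      rw [norm_smul, Real.norm_of_nonneg hρ0.le]
      have h4 := hz1 p.1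
      nlinarith
    have h5 := mos.1.comp_continuous h2 h3
    exact h5
  have h5 : Continuous fun p : X × S4 => h p.1 p.2 := (hh.comp continuous_fst).eval continuous_snd
  have h7 : Continuous fun p : X × S4 => s p.1 := hs.comp continuous_fst
  unfold Nn qt
  exact (((continuous_const.add (continuous_const.mul ((Real.continuous_exp.comp
    (h7.mul (hψ.comp h1))).sub continuous_const))).mul (Real.continuous_exp.comp
    (continuous_const.mul (continuous_const.mul h5)))).sub continuous_const).sub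
    (continuous_const.mul (continuous_const.mul h5))

/-- the nonlinearity is bounded -/
theorem bound_F {ψ : S4 → ℝ} {m M : ℝ} (hm : ∀ x, |ψ x| ≤ m) (hM : 0 < M) {s : ℝ}
    (hs : s ∈ Icc (0 : ℝ) 1) (b : E5) {h : C(S4, ℝ)} (hh : ‖h‖ ≤ 1) (x : S4) :
    |Nn (qt ψ s b) (fun x => M * h x) x| ≤ 6 * Real.exp (m + 4 * M) + 6 + 24 * M := by
  have h1 : |h x| ≤ 1 := (h.norm_coe_le_norm x).trans hh
  have h2 : |M * h x| ≤ M := by
    rw [abs_mul, abs_of_pos hM]
    nlinarith
  have h3 : |s * ψ (mob b x)| ≤ m := by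
    rw [abs_mul, abs_of_nonneg hs.1]
    have h4 := hm (mob b x)
    have h5 := abs_nonneg (ψ (mob b x))
    nlinarith [hs.2]
  have e : Nn (qt ψ s b) (fun x => M * h x) x =
      6 * Real.exp (s * ψ (mob b x) + 4 * (M * h x)) - 6 - 24 * (M * h x) := by
    unfold Nn qt
    rw [Real.exp_add]
    ring
  rw [e]
  have h6 : Real.exp (s * ψ (mob b x) + 4 * (M * h x)) ≤ Real.exp (m + 4 * M) := by
    apply Real.exp_le_exp.2
    have := (abs_le.1 h2).2
    have := (abs_le.1 h3).2
    linarith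
  have h7 := Real.exp_pos (s * ψ (mob b x) + 4 * (M * h x))
  have h8 := abs_le.1 h2
  rw [abs_le]
  constructor <;> linarith [h8.1, h8.2]

/-- THE CONTINUOUS VERSION on a parameter space -/
theorem core (khl : KhlStmt) (mos : MosStmt) (ker : KerStmt) {ψ : S4 → ℝ} (hψ : Continuous ψ)
    {ρ M : ℝ} (hρ0 : 0 < ρ) (hρ1 : ρ < 1) (hM : 0 < M) : ∃ B : ℝ,
    ∀ (X : Type) [TopologicalSpace X] (s : X → ℝ) (z : X → E5) (h : X → C(S4, ℝ)),
      Continuous s → Continuous z → Continuous h → (∀ w, s w ∈ Icc (0 : ℝ) 1) → (∀ w, ‖z w‖ ≤ 1) →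
      (∀ w, ‖h w‖ ≤ 1) → ∃ (V : X → E5) (T : X → C(S4, ℝ)), Continuous V ∧ Continuous T ∧
        (∀ w, V w = Bv ψ (s w) (ρ • z w) (fun x => M * h w x)) ∧
        (∀ w x, T w x = M⁻¹ * Tf ψ (s w) (ρ • z w) (fun x => M * h w x) x) ∧
        ∀ w, (∀ x, |T w x| ≤ B) ∧ ∀ x y, |T w x - T w y| ≤ B * √(dist x y) + B * dist x y := by
  obtain ⟨C, hC0, hC⟩ := khl
  obtain ⟨L, hL⟩ := exKL hC0 hC ker.1
  obtain ⟨V, hV⟩ := exV
  obtain ⟨A, hA⟩ := exA
  obtain ⟨m, hm0, hm⟩ := exists_bound hψ
  have hms := msig_pos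
  set N0 : ℝ := 6 * Real.exp (m + 4 * M) + 6 + 24 * M with hN0
  have hN0p : 0 ≤ N0 := by positivity
  set B : ℝ := M⁻¹ * (24 * (C * M) + 5 / msig * (‖V‖ * M) + C * N0 + ‖A‖ * N0 / 24) with hB
  have hMi : 0 < M⁻¹ := inv_pos.2 hM
  refine ⟨B, fun X _ s z h hs hz hh hs1 hz1 hh1 => ?_⟩
  -- the nonlinearity as a continuous map
  set F : C(X × S4, ℝ) := ⟨_, cont_F mos hψ hρ0 hρ1 (M := M) hs hz hh hz1⟩ with hF
  set N : C(X, C(S4, ℝ)) := F.curry with hNd
  have hN : ∀ w x, N w x = Nn (qt ψ (s w) (ρ • z w)) (fun x => M * h w x) x := fun w x => rfl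
  have hNn : ∀ w, ‖N w‖ ≤ N0 := fun w => by
    rw [ContinuousMap.norm_le _ hN0p]
    intro x
    rw [hN]
    exact bound_F hm hM (hs1 w) _ (hh1 w) x
  -- the coordinate functions
  set J : C(E5, C(S4, ℝ)) := (⟨fun p : E5 × S4 => ⟪(p.2 : E5), p.1⟫_ℝ,
    (continuous_subtype_val.comp continuous_snd).inner continuous_fst⟩ : C(E5 × S4, ℝ)).curry with hJ
  have hJx : ∀ v x, J v x = ⟪(x : E5), v⟫_ℝ := fun v x => rfl
  set T : X → C(S4, ℝ) := fun w => M⁻¹ • ((24 : ℝ) • L (M • h w) - (5 / msig) • J (V (M • h w)) +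
    L (N w) - (A (N w) / 24) • (1 : C(S4, ℝ))) with hT
  have hTx : ∀ w x, T w x = M⁻¹ * (24 * K (fun x => M * h w x) x -
      5 / msig * ⟪(x : E5), V (M • h w)⟫_ℝ + K (N w) x - A (N w) / 24) := fun w x => by
    rw [hT]
    simp only [ContinuousMap.smul_apply, ContinuousMap.sub_apply, ContinuousMap.add_apply,
      ContinuousMap.one_apply, smul_eq_mul, mul_one, hJx, hL]
    rfl
  refine ⟨fun w => V (N w), T, V.continuous.comp N.continuous, ?_, fun w => ?_, fun w x => ?_,
    fun w => ⟨fun x => ?_, fun x y => ?_⟩⟩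
  · have hMh : Continuous fun w => M • h w := hh.const_smul M
    rw [hT]
    exact (((((L.continuous.comp hMh).const_smul (24 : ℝ)).sub
      ((J.continuous.comp (V.continuous.comp hMh)).const_smul (5 / msig))).add
      (L.continuous.comp N.continuous)).sub
      (((A.continuous.comp N.continuous).div_const 24).smul continuous_const)).const_smul M⁻¹
  · show V (N w) = _
    rw [hV]
    rfl
  · rw [hTx]
    unfold Tf Aop
    have e1 : ∫ y : S4, ⟪(x : E5), (y : E5)⟫_ℝ * (M * h w y) ∂sig = ⟪(x : E5), V (M • h w)⟫_ℝ := by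
      rw [hV, ← inner_V]
      rfl
    rw [e1, hA]
    rfl
  · rw [hTx, abs_mul, abs_of_pos hMi, hB]
    refine mul_le_mul_of_nonneg_left ?_ hMi.le
    have h1 := (hC (fun x => M * h w x) M ((h w).continuous.const_mul M) (fun y => by
      rw [abs_mul, abs_of_pos hM]
      have := ((h w).norm_coe_le_norm y).trans (hh1 w)
      rw [Real.norm_eq_abs] at this
      nlinarith)).1 x
    have h2 := (hC (N w) N0 (N w).continuous (fun y => ((N w).norm_coe_le_norm y).trans (hNn w))).1 x
    have hVn : ‖V (M • h w)‖ ≤ ‖V‖ * M := (V.le_opNorm _).trans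
      (mul_le_mul_of_nonneg_left (by
        rw [norm_smul, Real.norm_of_nonneg hM.le]
        nlinarith [hh1 w]) (norm_nonneg _))
    have h3 : |⟪(x : E5), V (M • h w)⟫_ℝ| ≤ ‖V‖ * M := by
      refine (abs_real_inner_le_norm _ _).trans ?_
      rw [norm_eq_of_mem_sphere, one_mul]
      exact hVn
    have h4 : |A (N w)| ≤ ‖A‖ * N0 := (A.le_opNorm _).trans
      (mul_le_mul_of_nonneg_left (hNn w) (norm_nonneg _))
    have h5 : |5 / msig * ⟪(x : E5), V (M • h w)⟫_ℝ| ≤ 5 / msig * (‖V‖ * M) := by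
      rw [abs_mul, abs_of_pos (by positivity)]
      exact mul_le_mul_of_nonneg_left h3 (by positivity)
    rw [abs_le] at h1 h2 h4 h5 ⊢
    constructor <;> linarith [h1.1, h1.2, h2.1, h2.2, h4.1, h4.2, h5.1, h5.2]
  · have e2 : T w x - T w y = M⁻¹ * (24 * (K (fun x => M * h w x) x - K (fun x => M * h w x) y) -
        5 / msig * ⟪(x : E5) - y, V (M • h w)⟫_ℝ + (K (N w) x - K (N w) y)) := by
      rw [hTx, hTx, inner_sub_left]
      ring
    have h1 := (hC (fun x => M * h w x) M ((h w).continuous.const_mul M) (fun y => by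
      rw [abs_mul, abs_of_pos hM]
      have := ((h w).norm_coe_le_norm y).trans (hh1 w)
      rw [Real.norm_eq_abs] at this
      nlinarith)).2 x y
    have h2 := (hC (N w) N0 (N w).continuous
      (fun y => ((N w).norm_coe_le_norm y).trans (hNn w))).2 x y
    have hVn : ‖V (M • h w)‖ ≤ ‖V‖ * M := (V.le_opNorm _).trans
      (mul_le_mul_of_nonneg_left (by
        rw [norm_smul, Real.norm_of_nonneg hM.le]
        nlinarith [hh1 w]) (norm_nonneg _))
    have h3 : |⟪(x : E5) - y, V (M • h w)⟫_ℝ| ≤ dist x y * (‖V‖ * M) := by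
      refine (abs_real_inner_le_norm _ _).trans ?_
      have : ‖(x : E5) - y‖ = dist x y := by rw [Subtype.dist_eq, dist_eq_norm]
      rw [this]
      exact mul_le_mul_of_nonneg_left hVn dist_nonneg
    have h5 : |5 / msig * ⟪(x : E5) - y, V (M • h w)⟫_ℝ| ≤ 5 / msig * (dist x y * (‖V‖ * M)) := by
      rw [abs_mul, abs_of_pos (by positivity)]
      exact mul_le_mul_of_nonneg_left h3 (by positivity)
    have hd := dist_nonneg (x := x) (y := y)
    have hr := Real.sqrt_nonneg (dist x y)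
    have hVp := norm_nonneg V
    have hAp := norm_nonneg A
    have g1 : 24 * (C * M * √(dist x y)) + C * N0 * √(dist x y) ≤
        (24 * (C * M) + 5 / msig * (‖V‖ * M) + C * N0 + ‖A‖ * N0 / 24) * √(dist x y) := by
      have : 0 ≤ (5 / msig * (‖V‖ * M) + ‖A‖ * N0 / 24) * √(dist x y) := by positivity
      linarith
    have g2 : 5 / msig * (dist x y * (‖V‖ * M)) ≤
        (24 * (C * M) + 5 / msig * (‖V‖ * M) + C * N0 + ‖A‖ * N0 / 24) * dist x y := by
      have : 0 ≤ (24 * (C * M) + C * N0 + ‖A‖ * N0 / 24) * dist x y := by positivity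
      linarith
    rw [e2, abs_mul, abs_of_pos hMi]
    have e3 : B * √(dist x y) + B * dist x y =
        M⁻¹ * ((24 * (C * M) + 5 / msig * (‖V‖ * M) + C * N0 + ‖A‖ * N0 / 24) * √(dist x y) +
          (24 * (C * M) + 5 / msig * (‖V‖ * M) + C * N0 + ‖A‖ * N0 / 24) * dist x y) := by
      rw [hB]
      ring
    rw [e3]
    refine mul_le_mul_of_nonneg_left ?_ hMi.le
    rw [abs_le] at h1 h2 h5 ⊢
    constructor <;> linarith [h1.1, h1.2, h2.1, h2.2, h5.1, h5.2]

theorem ctz (khl : KhlStmt) (inv : InvStmt) (mos : MosStmt) (ker : KerStmt) : CtzStmt := by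
  intro P ψ ρ M hψ hP hρ0 hρ1 hM
  have hψc : Continuous ψ := continuous_of_sm hψ
  obtain ⟨B, hB⟩ := core khl mos ker hψc hρ0 hρ1 hM
  set D : Set (ℝ × (P × EE P)) := Icc (0 : ℝ) 1 ×ˢ Dm P (EE P) with hD
  obtain ⟨V, T, hVc, hTc, hV, hT, hTB⟩ := hB D (fun w => w.1.1) (fun w => (w.1.2.1 : E5))
    (fun w => ((w.1.2.2 : EE P) : C(S4, ℝ))) (continuous_fst.comp continuous_subtype_val)
    (continuous_subtype_val.comp (continuous_fst.comp (continuous_snd.comp continuous_subtype_val)))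
    (continuous_subtype_val.comp (continuous_snd.comp (continuous_snd.comp continuous_subtype_val)))
    (fun w => w.2.1) (fun w => w.2.2.1) (fun w => w.2.2.2)
  have hinv : ∀ w : D, Inv P (Tf ψ w.1.1 (ρ • (w.1.2.1 : E5))
      (fun x => M * ((w.1.2.2 : EE P) : C(S4, ℝ)) x)) ∧
      Bv ψ w.1.1 (ρ • (w.1.2.1 : E5)) (fun x => M * ((w.1.2.2 : EE P) : C(S4, ℝ)) x) ∈ P :=
    fun w => by
    have h1 : ‖ρ • (w.1.2.1 : E5)‖ < 1 := by
      rw [norm_smul, Real.norm_of_nonneg hρ0.le]
      have h4 : ‖(w.1.2.1 : E5)‖ ≤ 1 := w.2.2.1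
      nlinarith
    have h2 : Inv P (fun x => M * ((w.1.2.2 : EE P) : C(S4, ℝ)) x) := fun x => by
      have h3 := w.1.2.2.2 x
      show M * _ = M * _
      rw [h3]
    have h3 := inv P ψ (fun x => M * ((w.1.2.2 : EE P) : C(S4, ℝ)) x) (ρ • (w.1.2.1 : E5)) w.1.1 hP h2
      hψc (((w.1.2.2 : EE P) : C(S4, ℝ)).continuous.const_mul M)
      (P.smul_mem ρ w.1.2.1.2) h1
    exact ⟨h3.2.1, h3.2.2.1⟩
  have hVP : ∀ w : D, V w ∈ P := fun w => by
    rw [hV w]
    exact (hinv w).2
  have hTP : ∀ w : D, T w ∈ EE P := fun w x => by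
    show T w (act P.reflection x) = T w x
    rw [hT w, hT w, (hinv w).1 x]
  classical
  set β : ℝ × (P × EE P) → P := fun w => if h : w ∈ D then ⟨V ⟨w, h⟩, hVP ⟨w, h⟩⟩ else 0 with hβ
  set T' : ℝ × (P × EE P) → EE P := fun w => if h : w ∈ D then ⟨T ⟨w, h⟩, hTP ⟨w, h⟩⟩ else 0
    with hT'
  have hβr : D.domRestrict β = fun w : D => (⟨V w, hVP w⟩ : P) := by
    funext w
    show β w.1 = _
    rw [hβ]
    exact dif_pos w.2
  have hTr : D.domRestrict T' = fun w : D => (⟨T w, hTP w⟩ : EE P) := by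
    funext w
    show T' w.1 = _
    rw [hT']
    exact dif_pos w.2
  refine ⟨β, T', fun s hs z hz => ?_, ?_, ?_, ?_⟩
  · have hw : (s, z) ∈ D := ⟨hs, hz⟩
    have e1 : β (s, z) = ⟨V ⟨(s, z), hw⟩, hVP ⟨(s, z), hw⟩⟩ := by
      rw [hβ]
      exact dif_pos hw
    have e2 : T' (s, z) = ⟨T ⟨(s, z), hw⟩, hTP ⟨(s, z), hw⟩⟩ := by
      rw [hT']
      exact dif_pos hw
    refine ⟨?_, fun x => ?_⟩
    · rw [e1]
      exact hV ⟨(s, z), hw⟩
    · rw [e2]
      exact hT ⟨(s, z), hw⟩ x
  · rw [continuousOn_iff_continuous_domRestrict, hβr]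
    exact hVc.subtype_mk _
  · rw [continuousOn_iff_continuous_domRestrict, hTr]
    exact hTc.subtype_mk _
  · refine ⟨Subtype.val ⁻¹' {f : C(S4, ℝ) | (∀ x, |f x| ≤ B) ∧
      ∀ x y, |f x - f y| ≤ B * √(dist x y) + B * dist x y}, ?_, fun w hw => ?_⟩
    · exact (closed_EE P).isClosedEmbedding_subtypeVal.isCompact_preimage (cpt B)
    · have e2 : T' w = ⟨T ⟨w, hw⟩, hTP ⟨w, hw⟩⟩ := by
        rw [hT']
        exact dif_pos hw
      rw [e2]
      exact hTB ⟨w, hw⟩

end Pool.Agent.PQP.H36
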